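import Mathlib

/-!
# Definitions: representability by relations, finite axiomatisability
-/

set_option autoImplicit false

open FirstOrder

namespace Pool.Agent.H.MP_ef6db9_lc

universe u w

/-! ## Relations -/

/-- The domain `d(R) = {x : ∃ y, (x, y) ∈ R}` of a binary relation. -/
def dom {X : Type w} (R : Set (X × X)) : Set X := {x | ∃ y, (x, y) ∈ R}

/-- Ordinary composition `R ; S = {(x, z) : ∃ y, (x, y) ∈ R ∧ (y, z) ∈ S}`. -/
def relComp {X : Type w} (R S : Set (X × X)) : Set (X × X) :=
  {p | ∃ y, (p.1, y) ∈ R ∧ (y, p.2) ∈ S}

/-- The restriction `R|_A = {(x, y) ∈ R : x ∈ A}`. -/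
def restrict {X : Type w} (R : Set (X × X)) (A : Set X) : Set (X × X) :=
  {p | p ∈ R ∧ p.1 ∈ A}

/-- The condition `d(R) ∩ d(S) = d(R ∩ S)` under which the demonic meet is defined. -/
def MeetDefined {X : Type w} (R S : Set (X × X)) : Prop := dom R ∩ dom S = dom (R ∩ S)

/-- The demonic meet `(R ∩ S) ∪ R|_{X \ d(S)} ∪ S|_{X \ d(R)}`. -/
def demonicMeet {X : Type w} (R S : Set (X × X)) : Set (X × X) :=
  (R ∩ S) ∪ restrict R (dom S)ᶜ ∪ restrict S (dom R)ᶜ

/-- A `(⊓,;)`-structure: a set with a binary operation `comp` and a binary operation `meet`
that need not be everywhere defined (`meet a b = none` means that it is not defined at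
`(a, b)`). -/
class MeetCompStructure (S : Type u) where
  /-- the binary operation -/
  comp : S → S → S
  /-- the binary operation that need not be everywhere defined -/
  meet : S → S → Option S

/-- `S` is representable: there are a base `X` and an isomorphism `θ` from `S` onto a proper
`(⊓,;)`-structure of binary relations on `X`. -/
def Representable (S : Type u) [MeetCompStructure S] : Prop :=
  ∃ (X : Type w) (θ : S → Set (X × X)),
    Function.Injective θ ∧
    (∀ a b : S, θ (MeetCompStructure.comp a b) = relComp (θ a) (θ b)) ∧
    (∀ a b : S, (∃ c, MeetCompStructure.meet a b = some c) ↔ MeetDefined (θ a) (θ b)) ∧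
    (∀ a b c : S, MeetCompStructure.meet a b = some c → θ c = demonicMeet (θ a) (θ b))

/-! ## The first-order signature -/

/-- The function symbols: one binary symbol. -/
inductive FunSym : ℕ → Type
  | comp : FunSym 2

/-- The relation symbols: one ternary symbol for the graph of `⊓`. -/
inductive RelSym : ℕ → Type
  | meet : RelSym 3

/-- The signature of `(⊓,;)`-structures. -/
def sig : FirstOrder.Language.{0, 0} := ⟨FunSym, RelSym⟩

/-- A `(⊓,;)`-structure as a first-order structure: the function symbol is interpreted by
`comp`, the relation symbol by the graph of `meet`. -/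
instance instStructure (S : Type u) [MeetCompStructure S] : sig.Structure S where
  funMap := fun {_} f => match f with
    | FunSym.comp => fun x => MeetCompStructure.comp (x 0) (x 1)
  RelMap := fun {_} r => match r with
    | RelSym.meet => fun x => MeetCompStructure.meet (x 0) (x 1) = some (x 2)

/-- `R(⊓,;)` is finitely axiomatisable: there is a finite set of first-order sentences whose
models among `(⊓,;)`-structures are exactly the representable ones. -/
def FinitelyAxiomatisable : Prop :=
  ∃ Ψ : Finset sig.Sentence, ∀ (S : Type u) [MeetCompStructure S],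
    (∀ ψ ∈ Ψ, S ⊨ ψ) ↔ Representable.{u, w} S

end Pool.Agent.H.MP_ef6db9_lc
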