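import Pool.Agent.H.MP_ef6db9_lc.Defs

/-!
# `R(⊓,;)` is not finitely axiomatisable

`R(⊓,;)` is the class of `(⊓,;)`-structures representable by binary relations, with ordinary
composition `;` and demonic meet `⊓`. We show that no finite set of first-order sentences has
exactly the members of `R(⊓,;)` as its models among the `(⊓,;)`-structures.

Idea. For `n ≥ 0` let `S_n` have the elements `0, b, b', C, k, d` and `u i, v i, c i` (`i ∈ ℕ`),
the products `u (i+1) ; c i = v i` for `i ≠ n + 1`, `u 0 ; d = b`, `u (n+1) ; d = C`,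
`v (n+1) ; d = b'`, all other products `0`, and the defined meets: `0` is neutral, every element
is idempotent, `v i ⊓ u i = v i`, `u 0 ⊓ C = u 0`, `v 0 ⊓ C = v 0`, `b' ⊓ C = b'`,
`b ⊓ C = b ⊓ k = C ⊓ k = k`; all other meets are undefined.

* `S_n` is not representable. As `b ⊓ b'` is undefined there is a point `x ∈ d(b) ∩ d(b')` with
  `b(x) ∩ b'(x) = ∅`; one checks `x ∉ d(0)`. From `b = u 0 ; d` and `v i ⊓ u i = v i`,
  `v i = u (i+1) ; c i` we get `x ∈ d(u i)` for all `i ≤ n + 1`. With `b' = v (n+1) ; d` this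
  gives `x ∈ d(u (n+1) ; d) = d(C)`, and `b = u 0 ; d`, `u 0 ⊓ C = u 0` give `x ∈ d(C ; d) = d(0)`,
  a contradiction.
* A non-principal ultraproduct of the `S_n` is representable: now the chain from `0` to the
  non-standard last index can be cut at the standard part. By the theorem of Łoś the sentences of
  a finite axiomatisation would hold in some `S_n`.
-/

set_option autoImplicit false

open FirstOrder Filter

namespace Pool.Agent.H.MP_ef6db9_lc

universe u w

/-! ## The structures -/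

/-- Data: a set of indices with a successor function, a first and a last index. -/
structure Datum (L : Type) where
  /-- successor -/
  s : L → L
  /-- first index -/
  f : L
  /-- last index -/
  l : L

/-- Elements of the structure over the index set `L`. -/
inductive El (L : Type) : Type
  | zero | b | b' | C | k | d
  | u (i : L) | v (i : L) | c (i : L)

/-- the structure attached to a datum -/
def ElD {L : Type} (_ : Datum L) : Type := El L

open Classical in
/-- the product -/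
noncomputable def cmp {L : Type} (D : Datum L) : El L → El L → El L
  | .u j, .c i => if j = D.s i ∧ i ≠ D.l then .v i else .zero
  | .u j, .d => if j = D.f then .b else if j = D.l then .C else .zero
  | .v j, .d => if j = D.l then .b' else .zero
  | _, _ => .zero

/-- the strict part of the order -/
def lt' {L : Type} (D : Datum L) : El L → El L → Prop
  | _, .zero => True
  | .v i, .u j => i = j
  | .u i, .C => i = D.f
  | .v i, .C => i = D.f
  | .b', .C => True
  | .k, .b => True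
  | .k, .C => True
  | _, _ => False

/-- the order: `x` is below `y` when the meet of `x` and `y` is `x` -/
def le' {L : Type} (D : Datum L) (x y : El L) : Prop := x = y ∨ lt' D x y

/-- the pair `{b, C}` -/
def isBC {L : Type} (x y : El L) : Prop := (x = .b ∧ y = .C) ∨ (x = .C ∧ y = .b)

open Classical in
/-- the meet -/
noncomputable def mt {L : Type} (D : Datum L) (x y : El L) : Option (El L) :=
  if le' D x y then some x else if le' D y x then some y else
    if isBC x y then some .k else none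

noncomputable instance {L : Type} (D : Datum L) : MeetCompStructure (ElD D) where
  comp := cmp D
  meet := mt D

/-! ## Non-representability of the chain structures -/

section nonrep

variable {L : Type} {D : Datum L} {X : Type w} {θ : ElD D → Set (X × X)}

lemma mem_cmp (h : ∀ e₁ e₂ : ElD D, θ (MeetCompStructure.comp e₁ e₂) = relComp (θ e₁) (θ e₂))
    {x y z : El L} (e : cmp D x y = z) (p q : X) :
    (p, q) ∈ θ z ↔ ∃ m, (p, m) ∈ θ x ∧ (m, q) ∈ θ y := by
  subst e
  have := h x y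
  rw [show θ (cmp D x y) = relComp (θ x) (θ y) from this]
  rfl

lemma meet_undef (h : ∀ e₁ e₂ : ElD D, (∃ e₃, MeetCompStructure.meet e₁ e₂ = some e₃) ↔
      MeetDefined (θ e₁) (θ e₂))
    {x y : El L} (e : mt D x y = none) :
    ∃ p, (∃ q, (p, q) ∈ θ x) ∧ (∃ q, (p, q) ∈ θ y) ∧ ∀ q, (p, q) ∈ θ x → (p, q) ∉ θ y := by
  by_contra hcon
  have hcon : ∀ p, (∃ q, (p, q) ∈ θ x) → (∃ q, (p, q) ∈ θ y) →
      ∃ q, (p, q) ∈ θ x ∧ (p, q) ∈ θ y := by
    intro p hp1 hp2
    by_contra hq
    exact hcon ⟨p, hp1, hp2, fun q hq1 hq2 => hq ⟨q, hq1, hq2⟩⟩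
  have h1 : MeetDefined (θ x) (θ y) := by
    apply Set.Subset.antisymm
    · rintro p ⟨hp1, hp2⟩
      obtain ⟨q, hq1, hq2⟩ := hcon p hp1 hp2
      exact ⟨q, hq1, hq2⟩
    · rintro p ⟨q, hq1, hq2⟩
      exact ⟨⟨q, hq1⟩, ⟨q, hq2⟩⟩
  obtain ⟨c, hc⟩ := (h x y).2 h1
  have : mt D x y = some c := hc
  rw [e] at this
  exact absurd this (by simp)

lemma le_dom (h : ∀ e₁ e₂ e₃ : ElD D, MeetCompStructure.meet e₁ e₂ = some e₃ →
      θ e₃ = demonicMeet (θ e₁) (θ e₂))
    {x y : El L} (e : mt D x y = some x) {p : X} (hp : ∃ q, (p, q) ∈ θ y) :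
    ∃ q, (p, q) ∈ θ x := by
  have := h x y x e
  obtain ⟨q, hq⟩ := hp
  by_cases hx : ∃ q, (p, q) ∈ θ x
  · exact hx
  · refine ⟨q, ?_⟩
    rw [this]
    exact Or.inr ⟨hq, hx⟩

lemma le_mem (h : ∀ e₁ e₂ e₃ : ElD D, MeetCompStructure.meet e₁ e₂ = some e₃ →
      θ e₃ = demonicMeet (θ e₁) (θ e₂))
    {x y : El L} (e : mt D x y = some x) {p q : X} (hp : ∃ q, (p, q) ∈ θ y)
    (hq : (p, q) ∈ θ x) : (p, q) ∈ θ y := by
  have := h x y x e
  rw [this] at hq
  rcases hq with (hq | hq) | hq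
  · exact hq.2
  · exact absurd hp hq.2
  · exact absurd hp (fun _ => by
      obtain ⟨r, hr⟩ := hp
      exact hq.2 (by
        have h2 := le_dom h e ⟨r, hr⟩
        exact h2))

end nonrep

/-- the datum with index set `ℕ`, first index `0` and last index `n + 1` -/
def DN (n : ℕ) : Datum ℕ := ⟨Nat.succ, 0, n + 1⟩

theorem not_representable (n : ℕ) : ¬ Representable.{0, w} (ElD (DN n)) := by
  rintro ⟨X, θ, -, hcomp, hdef, hmeet⟩
  -- the point `x` at which `b` and `b'` are defined with disjoint images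
  obtain ⟨x, hb, hb', hdisj⟩ := meet_undef (D := DN n) (x := .b) (y := .b') hdef
    (by simp [mt, le', lt', isBC])
  -- products
  have c1 := mem_cmp (D := DN n) (x := .u 0) (y := .d) (z := .b) hcomp (by simp [cmp, DN])
  have c2 := mem_cmp (D := DN n) (x := .u (n + 1)) (y := .d) (z := .C) hcomp (by simp [cmp, DN])
  have c3 := mem_cmp (D := DN n) (x := .v (n + 1)) (y := .d) (z := .b') hcomp (by simp [cmp, DN])
  have c4 : ∀ i, i ≠ n + 1 → _ := fun i (hi : i ≠ n + 1) =>
    mem_cmp (D := DN n) (x := .u (i + 1)) (y := .c i) (z := .v i) hcomp (by simp [cmp, DN, hi])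
  have c5 := mem_cmp (D := DN n) (x := .C) (y := .d) (z := .zero) hcomp (by simp [cmp])
  have c6 := mem_cmp (D := DN n) (x := .v 0) (y := .d) (z := .zero) hcomp (by simp [cmp, DN])
  -- meets
  have m1 : ∀ i, mt (DN n) (.v i) (.u i) = some (.v i) := fun i => by simp [mt, le', lt']
  have m2 : mt (DN n) (.u 0) .C = some (.u 0) := by simp [mt, le', lt', DN]
  have m3 : mt (DN n) .b' .zero = some .b' := by simp [mt, le', lt']
  -- `x` is in the domain of `u 0`
  have u0 : ∃ y, (x, y) ∈ θ (El.u 0) := by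
    obtain ⟨y, hy⟩ := hb
    obtain ⟨m, hm, -⟩ := (c1 x y).1 hy
    exact ⟨m, hm⟩
  -- `x` is not in the domain of `zero`
  have hz : ¬ ∃ y, (x, y) ∈ θ El.zero := by
    intro hz
    obtain ⟨y, hy⟩ := hb'
    have h1 : (x, y) ∈ θ El.zero := le_mem hmeet m3 hz hy
    obtain ⟨m, hm1, hm2⟩ := (c6 x y).1 h1
    have h2 : (x, m) ∈ θ (El.u 0) := le_mem hmeet (m1 0) u0 hm1
    exact hdisj y ((c1 x y).2 ⟨m, h2, hm2⟩) hy
  -- the chain
  have chain : ∀ i, i ≤ n + 1 → ∃ y, (x, y) ∈ θ (El.u i) := by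
    intro i
    induction i with
    | zero => intro _; exact u0
    | succ i ih =>
      intro hi
      obtain ⟨y, hy⟩ := le_dom hmeet (m1 i) (ih (by omega))
      obtain ⟨m, hm, -⟩ := (c4 i (by omega) x y).1 hy
      exact ⟨m, hm⟩
  have ul := chain (n + 1) le_rfl
  -- `x` is in the domain of `C`
  have hC : ∃ y, (x, y) ∈ θ El.C := by
    obtain ⟨y, hy⟩ := hb'
    obtain ⟨m, hm1, hm2⟩ := (c3 x y).1 hy
    exact ⟨y, (c2 x y).2 ⟨m, le_mem hmeet (m1 (n + 1)) ul hm1, hm2⟩⟩
  obtain ⟨y, hy⟩ := hb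
  obtain ⟨m, hm1, hm2⟩ := (c1 x y).1 hy
  exact hz ⟨y, (c5 x y).2 ⟨m, le_mem hmeet m2 hC hm1, hm2⟩⟩

/-! ## Representability of broken chains -/

/-- points of the base -/
inductive Pt (L : Type) : Type
  | R (t : Fin 3) | Y (t : Fin 3) (i : L) | Z (t : Fin 3) (i : L)
  | β (t : Fin 3) | β' (t : Fin 3) | δ (i : Option L)

/-- the relations -/
def rel {L : Type} (D : Datum L) (A : Set L) : El L → Pt L → Pt L → Prop
  | .b, .R t, .β t' => t = t' ∧ t ≠ 0
  | .b', .R t, .β' t' => t = t' ∧ t ≠ 2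
  | .C, .R t, .Y t' i => t = 0 ∧ t' = 0 ∧ i = D.f
  | .C, .R t, .Z t' i => t = 0 ∧ t' = 0 ∧ i = D.f
  | .C, .R t, .β' t' => t = 0 ∧ t' = 0
  | .k, .R t, .β t' => t = t' ∧ t ≠ 0
  | .k, .R t, .Y t' i => t = 0 ∧ t' = 0 ∧ i = D.f
  | .k, .R t, .Z t' i => t = 0 ∧ t' = 0 ∧ i = D.f
  | .k, .R t, .β' t' => t = 0 ∧ t' = 0
  | .d, .Y t i, .β t' => t = t' ∧ t ≠ 0 ∧ i = D.f
  | .d, .Y t i, .Y t' j => t = 0 ∧ t' = 0 ∧ i = D.l ∧ j = D.f
  | .d, .Y t i, .Z t' j => t = 0 ∧ t' = 0 ∧ i = D.l ∧ j = D.f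
  | .d, .Z t i, .β' t' => t = t' ∧ t ≠ 2 ∧ i = D.l
  | .d, .R t, .δ j => t ≠ 1 ∧ j = none
  | .u i, .R t, .Y t' j => t = t' ∧ i = j ∧ (t = 1 → i ∈ A)
  | .u i, .R t, .Z t' j => t = t' ∧ i = j ∧ (t = 1 → i ∈ A)
  | .v i, .R t, .Z t' j => t = t' ∧ i = j ∧ (t = 1 → i = D.l ∨ D.s i ∈ A)
  | .c i, .Y t j, .Z t' i' => t = t' ∧ i' = i ∧ j = D.s i ∧ i ≠ D.l
  | .c i, .R t, .δ j => t ≠ 1 ∧ j = some i
  | _, _, _ => False

section rep

variable {L : Type} (D : Datum L) (A : Set L)

lemma rel_cmp (hf : ∀ i, D.s i ≠ D.f) (hfA : D.f ∈ A) (hlA : D.l ∉ A)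
    (x y : El L) (p q : Pt L) :
    rel D A (cmp D x y) p q ↔ ∃ m, rel D A x p m ∧ rel D A y m q := by
  have hfl : D.f ≠ D.l := fun h => hlA (h ▸ hfA)
  constructor
  · intro h
    cases x <;> cases y <;> simp only [cmp, rel] at h
    case u.d j =>
      split_ifs at h with h1 h2
      · cases p <;> cases q <;> simp only [rel] at h
        rename_i t t'
        obtain ⟨rfl, h⟩ := h
        exact ⟨.Y t j, ⟨rfl, rfl, fun _ => h1 ▸ hfA⟩, ⟨rfl, h, h1⟩⟩
      · cases p <;> cases q <;> simp only [rel] at h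
        · rename_i t t' i'
          obtain ⟨rfl, rfl, rfl⟩ := h
          exact ⟨.Y 0 j, ⟨rfl, rfl, by simp⟩, ⟨rfl, rfl, h2, rfl⟩⟩
        · rename_i t t' i'
          obtain ⟨rfl, rfl, rfl⟩ := h
          exact ⟨.Y 0 j, ⟨rfl, rfl, by simp⟩, ⟨rfl, rfl, h2, rfl⟩⟩
        · rename_i t t'
          obtain ⟨rfl, rfl⟩ := h
          exact ⟨.Z 0 j, ⟨rfl, rfl, by simp⟩, ⟨rfl, by simp, h2⟩⟩
      · simp [rel] at h
    case v.d j =>
      split_ifs at h with h1
      · cases p <;> cases q <;> simp only [rel] at h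
        rename_i t t'
        obtain ⟨rfl, h⟩ := h
        exact ⟨.Z t j, ⟨rfl, rfl, fun _ => Or.inl h1⟩, ⟨rfl, h, h1⟩⟩
      · simp [rel] at h
    case u.c j i =>
      split_ifs at h with h1
      · obtain ⟨rfl, hi⟩ := h1
        cases p <;> cases q <;> simp only [rel] at h
        rename_i t t' i'
        obtain ⟨rfl, rfl, h⟩ := h
        exact ⟨.Y t (D.s i), ⟨rfl, rfl, fun ht => (h ht).resolve_left hi⟩, ⟨rfl, rfl, rfl, hi⟩⟩
      · simp [rel] at h
  · rintro ⟨m, h1, h2⟩
    cases x <;> cases p <;> cases m <;> simp only [rel] at h1 <;>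
      cases y <;> cases q <;> simp only [rel] at h2 <;> simp only [cmp] <;> grind [rel]

/-- an image of the point `p` under the relation of `x`, when there is one -/
def out {L : Type} : El L → Pt L → Pt L
  | .b, .R t => .β t
  | .b', .R t => .β' t
  | .C, .R t => .β' t
  | .k, .R t => if t = 0 then .β' t else .β t
  | .d, .R _ => .δ none
  | .u i, .R t => .Y t i
  | .v i, .R t => .Z t i
  | .c i, .R _ => .δ (some i)
  | _, p => p

lemma rel_le (hsA : ∀ i ∈ A, D.s i ∈ A)
    {x y : El L} (h : le' D x y) {p : Pt L} (hp : ∃ q, rel D A y p q) :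
    (∃ q, rel D A x p q) ∧ ∀ q, rel D A x p q → rel D A y p q := by
  obtain ⟨q, hq⟩ := hp
  rcases h with rfl | h
  · exact ⟨⟨q, hq⟩, fun _ h => h⟩
  · refine ⟨⟨out x p, ?_⟩, fun q' hq' => ?_⟩
    · cases x <;> cases y <;> simp only [lt'] at h <;>
        cases p <;> cases q <;> simp only [rel] at hq <;> grind [rel, out]
    · cases x <;> cases y <;> simp only [lt'] at h <;>
        cases p <;> cases q <;> simp only [rel] at hq <;>
        cases q' <;> simp only [rel] at hq' <;> grind [rel]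

/-- index of the point which shows that the meet of `x` and `y` is not defined -/
def wit {L : Type} : El L → El L → Fin 3
  | .b, .b' => 1
  | .b', .b => 1
  | .k, .b' => 1
  | .b', .k => 1
  | .b, _ => 2
  | _, .b => 2
  | .k, _ => 2
  | _, .k => 2
  | _, _ => 0

lemma rel_undef {x y : El L} (h1 : ¬ le' D x y) (h2 : ¬ le' D y x) (h3 : ¬ isBC x y) :
    ∃ p, (∃ q, rel D A x p q) ∧ (∃ q, rel D A y p q) ∧
      ∀ q, rel D A x p q → ¬ rel D A y p q := by
  refine ⟨.R (wit x y), ⟨out x (.R (wit x y)), ?_⟩, ⟨out y (.R (wit x y)), ?_⟩,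
    fun q hq hq' => ?_⟩
  · cases x <;> cases y <;> simp only [le', lt', isBC, not_or] at h1 h2 h3 <;>
      simp [rel, wit, out] <;> grind
  · cases x <;> cases y <;> simp only [le', lt', isBC, not_or] at h1 h2 h3 <;>
      simp [rel, wit, out] <;> grind
  · cases x <;> cases y <;> simp only [le', lt', isBC, not_or] at h1 h2 h3 <;>
      cases q <;> simp only [rel] at hq hq' <;> grind [wit]

lemma rel_inj {x y : El L} (h : ∀ p q, rel D A x p q ↔ rel D A y p q) : x = y := by
  have h0 := h (.R 0) (out x (.R 0))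
  have h1 := h (.R 1) (out x (.R 1))
  have h2 := h (.R 2) (out x (.R 2))
  have h0' := h (.R 0) (out y (.R 0))
  have h1' := h (.R 1) (out y (.R 1))
  have h2' := h (.R 2) (out y (.R 2))
  clear h
  cases x <;> cases y <;> simp [rel, out] at h0 h1 h2 h0' h1' h2' ⊢ <;> grind

lemma rel_BC {x y : El L} (h : isBC x y) (p : Pt L) :
    ¬ ((∃ q, rel D A x p q) ∧ (∃ q, rel D A y p q)) ∧
      ∀ q, rel D A .k p q ↔ rel D A x p q ∨ rel D A y p q := by
  constructor
  · rintro ⟨⟨q, hq⟩, ⟨r, hr⟩⟩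
    rcases h with ⟨rfl, rfl⟩ | ⟨rfl, rfl⟩ <;> cases p <;> cases q <;> simp only [rel] at hq <;>
      cases r <;> simp only [rel] at hr <;> grind
  · intro q
    rcases h with ⟨rfl, rfl⟩ | ⟨rfl, rfl⟩ <;> cases p <;> cases q <;> simp [rel]

end rep

section sets

variable {X : Type w} {R S : Set (X × X)}

lemma md_le (h : ∀ p, p ∈ dom S → p ∈ dom R ∧ ∀ q, (p, q) ∈ R → (p, q) ∈ S) :
    MeetDefined R S ∧ R = demonicMeet R S := by
  constructor
  · apply Set.Subset.antisymm
    · rintro p ⟨⟨q, hq⟩, hp⟩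
      exact ⟨q, hq, (h p hp).2 q hq⟩
    · rintro p ⟨q, hq1, hq2⟩
      exact ⟨⟨q, hq1⟩, ⟨q, hq2⟩⟩
  · ext ⟨p, q⟩
    constructor
    · intro hpq
      by_cases hp : p ∈ dom S
      · exact Or.inl (Or.inl ⟨hpq, (h p hp).2 q hpq⟩)
      · exact Or.inl (Or.inr ⟨hpq, hp⟩)
    · rintro ((hpq | hpq) | hpq)
      · exact hpq.1
      · exact hpq.1
      · exact absurd (h p ⟨q, hpq.1⟩).1 hpq.2

lemma md_comm : MeetDefined R S ↔ MeetDefined S R := by
  unfold MeetDefined
  rw [Set.inter_comm, Set.inter_comm R S]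

lemma dm_comm : demonicMeet R S = demonicMeet S R := by
  unfold demonicMeet
  rw [Set.inter_comm, Set.union_assoc, Set.union_assoc,
    Set.union_comm (restrict R (dom S)ᶜ)]

lemma md_disj (h : ∀ p, ¬ (p ∈ dom R ∧ p ∈ dom S)) :
    MeetDefined R S ∧ R ∪ S = demonicMeet R S := by
  constructor
  · apply Set.Subset.antisymm
    · rintro p hp
      exact absurd hp (h p)
    · rintro p ⟨q, hq1, hq2⟩
      exact ⟨⟨q, hq1⟩, ⟨q, hq2⟩⟩
  · ext ⟨p, q⟩
    constructor
    · rintro (hpq | hpq)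
      · exact Or.inl (Or.inr ⟨hpq, fun h' => h p ⟨⟨q, hpq⟩, h'⟩⟩)
      · exact Or.inr ⟨hpq, fun h' => h p ⟨h', ⟨q, hpq⟩⟩⟩
    · rintro ((hpq | hpq) | hpq)
      · exact Or.inl hpq.1
      · exact Or.inl hpq.1
      · exact Or.inr hpq.1

end sets

/-- the relation of an element, on the lifted base -/
def theta {L : Type} (D : Datum L) (A : Set L) (x : ElD D) :
    Set (ULift.{w} (Pt L) × ULift.{w} (Pt L)) :=
  {p | rel D A x p.1.down p.2.down}

theorem representable_of_cut {L : Type} (D : Datum L) (A : Set L) (hf : ∀ i, D.s i ≠ D.f)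
    (hfA : D.f ∈ A) (hlA : D.l ∉ A) (hsA : ∀ i ∈ A, D.s i ∈ A) :
    Representable.{0, w} (ElD D) := by
  have hdom : ∀ (x : El L) (p : Pt L),
      (ULift.up.{w} p ∈ dom (theta.{w} D A x)) ↔ ∃ q, rel D A x p q := by
    intro x p
    constructor
    · rintro ⟨q, hq⟩
      exact ⟨q.down, hq⟩
    · rintro ⟨q, hq⟩
      exact ⟨⟨q⟩, hq⟩
  have hle : ∀ x y : El L, le' D x y →
      MeetDefined (theta.{w} D A x) (theta D A y) ∧
        theta D A x = demonicMeet (theta.{w} D A x) (theta D A y) := by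
    intro x y hxy
    apply md_le
    rintro ⟨p⟩ hp
    have := rel_le D A hsA hxy ((hdom y p).1 hp)
    exact ⟨(hdom x p).2 this.1, fun q hq => this.2 q.down hq⟩
  have hBC : ∀ x y : El L, isBC x y →
      MeetDefined (theta.{w} D A x) (theta D A y) ∧
        theta D A El.k = demonicMeet (theta.{w} D A x) (theta D A y) := by
    intro x y hxy
    have h1 : ∀ p, ¬ (p ∈ dom (theta.{w} D A x) ∧ p ∈ dom (theta D A y)) := by
      rintro ⟨p⟩ ⟨h1, h2⟩
      exact (rel_BC D A hxy p).1 ⟨(hdom x p).1 h1, (hdom y p).1 h2⟩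
    have h2 := md_disj h1
    refine ⟨h2.1, h2.2 ▸ ?_⟩
    ext ⟨p, q⟩
    exact (rel_BC D A hxy p.down).2 q.down
  refine ⟨ULift.{w} (Pt L), theta D A, ?_, ?_, ?_, ?_⟩
  · intro x y hxy
    apply rel_inj D A
    intro p q
    exact iff_of_eq (congrArg (fun s : Set (ULift.{w} (Pt L) × ULift.{w} (Pt L)) =>
      ((⟨p⟩, ⟨q⟩) : ULift.{w} (Pt L) × ULift.{w} (Pt L)) ∈ s) hxy)
  · intro x y
    ext ⟨⟨p⟩, ⟨q⟩⟩
    refine (rel_cmp D A hf hfA hlA x y p q).trans ?_
    constructor
    · rintro ⟨m, h1, h2⟩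
      exact ⟨⟨m⟩, h1, h2⟩
    · rintro ⟨⟨m⟩, h1, h2⟩
      exact ⟨m, h1, h2⟩
  · intro x y
    constructor
    · rintro ⟨z, hz⟩
      change mt D x y = some z at hz
      unfold mt at hz
      split_ifs at hz with h1 h2 h3
      · exact (hle x y h1).1
      · exact md_comm.1 (hle y x h2).1
      · exact (hBC x y h3).1
    · intro h
      change ∃ z, mt D x y = some z
      unfold mt
      split_ifs with h1 h2 h3
      · exact ⟨_, rfl⟩
      · exact ⟨_, rfl⟩
      · exact ⟨_, rfl⟩
      · exfalso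
        obtain ⟨p, hp1, hp2, hp3⟩ := rel_undef D A h1 h2 h3
        have h4 : ULift.up.{w} p ∈ dom (theta.{w} D A x) ∩ dom (theta D A y) :=
          ⟨(hdom x p).2 hp1, (hdom y p).2 hp2⟩
        rw [show dom (theta.{w} D A x) ∩ dom (theta D A y) = _ from h] at h4
        obtain ⟨q, hq1, hq2⟩ := h4
        exact hp3 q.down hq1 hq2
  · intro x y z hz
    change mt D x y = some z at hz
    unfold mt at hz
    split_ifs at hz with h1 h2 h3
    · rw [← Option.some.inj hz]
      exact (hle x y h1).2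
    · rw [← Option.some.inj hz, dm_comm]
      exact (hle y x h2).2
    · rw [← Option.some.inj hz]
      exact (hBC x y h3).2

/-! ## Transfer of first-order truth along isomorphisms -/

/-- an isomorphism of first-order structures from an isomorphism of `(⊓,;)`-structures -/
def toEquiv {S : Type u} {T : Type w} [MeetCompStructure S] [MeetCompStructure T] (e : S ≃ T)
    (hc : ∀ a b, e (MeetCompStructure.comp a b) = MeetCompStructure.comp (e a) (e b))
    (hm : ∀ a b c, MeetCompStructure.meet (e a) (e b) = some (e c) ↔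
      MeetCompStructure.meet a b = some c) : S ≃[sig] T where
  toEquiv := e
  map_fun' := by
    intro n f x
    cases f
    exact hc _ _
  map_rel' := by
    intro n r x
    cases r
    exact hm _ _ _

instance instULift (S : Type) [MeetCompStructure S] : MeetCompStructure (ULift.{u} S) where
  comp a b := ⟨MeetCompStructure.comp a.down b.down⟩
  meet a b := (MeetCompStructure.meet a.down b.down).map ULift.up

lemma ulift_meet {S : Type} [MeetCompStructure S] (a b c : ULift.{u} S) :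
    MeetCompStructure.meet a b = some c ↔
      MeetCompStructure.meet a.down b.down = some c.down := by
  change (MeetCompStructure.meet a.down b.down).map ULift.up = some c ↔ _
  constructor
  · intro h
    obtain ⟨d, h1, rfl⟩ := Option.map_eq_some_iff.1 h
    exact h1
  · intro h
    rw [h]
    rfl

lemma ulift_models {S : Type} [MeetCompStructure S] (ψ : sig.Sentence) :
    ULift.{u} S ⊨ ψ ↔ S ⊨ ψ := by
  let e : ULift.{u} S ≃[sig] S := toEquiv Equiv.ulift (fun _ _ => rfl)
    (fun a b c => (ulift_meet a b c).symm)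
  exact e.toElementaryEmbedding.map_sentence ψ

lemma ulift_rep {S : Type} [MeetCompStructure S] :
    Representable.{u, w} (ULift.{u} S) ↔ Representable.{0, w} S := by
  constructor
  · rintro ⟨X, θ, h1, h2, h3, h4⟩
    refine ⟨X, fun a => θ ⟨a⟩, fun a b h => congrArg ULift.down (h1 h), fun a b => h2 ⟨a⟩ ⟨b⟩,
      fun a b => ?_, fun a b c h => h4 ⟨a⟩ ⟨b⟩ ⟨c⟩ ((ulift_meet _ _ _).2 h)⟩
    rw [← h3 ⟨a⟩ ⟨b⟩]
    constructor
    · rintro ⟨c, hc⟩
      exact ⟨⟨c⟩, (ulift_meet _ _ _).2 hc⟩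
    · rintro ⟨c, hc⟩
      exact ⟨c.down, (ulift_meet _ _ _).1 hc⟩
  · rintro ⟨X, θ, h1, h2, h3, h4⟩
    refine ⟨X, fun a => θ a.down, fun a b h => congrArg ULift.up (h1 h), fun a b => h2 _ _,
      fun a b => ?_, fun a b c h => h4 _ _ _ ((ulift_meet _ _ _).1 h)⟩
    rw [← h3 a.down b.down]
    constructor
    · rintro ⟨c, hc⟩
      exact ⟨c.down, (ulift_meet _ _ _).1 hc⟩
    · rintro ⟨c, hc⟩
      exact ⟨⟨c⟩, (ulift_meet _ _ _).2 hc⟩

/-! ## The ultraproduct -/

/-- a non-principal ultrafilter on `ℕ` -/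
noncomputable abbrev U : Ultrafilter ℕ := hyperfilter ℕ

/-- the ultrapower of the index set -/
abbrev Idx : Type := Germ (U : Filter ℕ) ℕ

/-- the datum on the ultrapower -/
noncomputable def DS : Datum Idx := ⟨Germ.map Nat.succ, ((fun _ => 0 : ℕ → ℕ) : Idx),
  ((fun n => n + 1 : ℕ → ℕ) : Idx)⟩

/-- the ultraproduct of the chain structures -/
abbrev UP : Type := (U : Filter ℕ).Product (fun n => ElD (DN n))

/-- `x` is an element over the ultrapower index set, `e` a sequence representing it -/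
inductive Shape : El Idx → (∀ n, ElD (DN n)) → Prop
  | zero : Shape .zero (fun _ => El.zero)
  | b : Shape .b (fun _ => El.b)
  | b' : Shape .b' (fun _ => El.b')
  | C : Shape .C (fun _ => El.C)
  | k : Shape .k (fun _ => El.k)
  | d : Shape .d (fun _ => El.d)
  | u (a : ℕ → ℕ) : Shape (.u (a : Idx)) (fun n => El.u (a n))
  | v (a : ℕ → ℕ) : Shape (.v (a : Idx)) (fun n => El.v (a n))
  | c (a : ℕ → ℕ) : Shape (.c (a : Idx)) (fun n => El.c (a n))

lemma shape_exists (x : El Idx) : ∃ e, Shape x e := by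
  cases x with
  | zero => exact ⟨_, .zero⟩
  | b => exact ⟨_, .b⟩
  | b' => exact ⟨_, .b'⟩
  | C => exact ⟨_, .C⟩
  | k => exact ⟨_, .k⟩
  | d => exact ⟨_, .d⟩
  | u i => induction i using Germ.inductionOn with | _ a => exact ⟨_, .u a⟩
  | v i => induction i using Germ.inductionOn with | _ a => exact ⟨_, .v a⟩
  | c i => induction i using Germ.inductionOn with | _ a => exact ⟨_, .c a⟩

/-- the order on the ultrapower is the eventual order -/
lemma shape_le {x y : El Idx} {e e' : ∀ n, ElD (DN n)} (h : Shape x e) (h' : Shape y e') :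
    le' DS x y ↔ ∀ᶠ n in (U : Filter ℕ), le' (DN n) (e n) (e' n) := by
  cases h <;> cases h' <;> simp [le', lt', DS, DN] <;>
    first | exact U.neBot.ne | exact Iff.rfl

lemma shape_BC {x y : El Idx} {e e' : ∀ n, ElD (DN n)} (h : Shape x e) (h' : Shape y e') :
    isBC x y ↔ ∀ᶠ n in (U : Filter ℕ), isBC (e n) (e' n) := by
  cases h <;> cases h' <;> simp [isBC] <;> exact U.neBot.ne

/-- the class of a sequence in the ultraproduct -/
noncomputable def mkU (e : ∀ n, ElD (DN n)) : UP :=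
  @Quotient.mk' _ (productSetoid (U : Filter ℕ) (fun n => ElD (DN n))) e

lemma mkU_eq {e e' : ∀ n, ElD (DN n)} :
    mkU e = mkU e' ↔ ∀ᶠ n in (U : Filter ℕ), e n = e' n :=
  @Quotient.eq'' _ (productSetoid (U : Filter ℕ) (fun n => ElD (DN n))) _ _

/-- the element of the ultraproduct given by an element over the ultrapower index set -/
noncomputable def Φ : El Idx → UP
  | .zero => mkU (fun _ => El.zero)
  | .b => mkU (fun _ => El.b)
  | .b' => mkU (fun _ => El.b')
  | .C => mkU (fun _ => El.C)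
  | .k => mkU (fun _ => El.k)
  | .d => mkU (fun _ => El.d)
  | .u i => Quotient.liftOn' i (fun a => mkU (fun n => El.u (a n)))
      (fun _ _ h => mkU_eq.2 (Eventually.mono h fun _ h => congrArg El.u h))
  | .v i => Quotient.liftOn' i (fun a => mkU (fun n => El.v (a n)))
      (fun _ _ h => mkU_eq.2 (Eventually.mono h fun _ h => congrArg El.v h))
  | .c i => Quotient.liftOn' i (fun a => mkU (fun n => El.c (a n)))
      (fun _ _ h => mkU_eq.2 (Eventually.mono h fun _ h => congrArg El.c h))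

lemma shape_Φ {x : El Idx} {e : ∀ n, ElD (DN n)} (h : Shape x e) : Φ x = mkU e := by
  cases h <;> rfl

lemma Φ_injective : Function.Injective Φ := by
  intro x y hxy
  obtain ⟨e, he⟩ := shape_exists x
  obtain ⟨e', he'⟩ := shape_exists y
  rw [shape_Φ he, shape_Φ he', mkU_eq] at hxy
  have h1 : le' DS x y := (shape_le he he').2 (hxy.mono fun n h => Or.inl h)
  have h2 : le' DS y x := (shape_le he' he).2 (hxy.mono fun n h => Or.inl h.symm)
  rcases h1 with h1 | h1
  · exact h1
  rcases h2 with h2 | h2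
  · exact h2.symm
  cases x <;> cases y <;> first | rfl | exact h1.elim | exact h2.elim

/-- number of the constructor -/
def kind {L : Type} : El L → Fin 9
  | .zero => 0
  | .b => 1
  | .b' => 2
  | .C => 3
  | .k => 4
  | .d => 5
  | .u _ => 6
  | .v _ => 7
  | .c _ => 8

/-- the index -/
def idx : El ℕ → ℕ
  | .u i => i
  | .v i => i
  | .c i => i
  | _ => 0

/-- element from the number of the constructor and the index -/
def mk {L : Type} : Fin 9 → L → El L
  | 0, _ => .zero
  | 1, _ => .b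
  | 2, _ => .b'
  | 3, _ => .C
  | 4, _ => .k
  | 5, _ => .d
  | 6, i => .u i
  | 7, i => .v i
  | 8, i => .c i

lemma mk_kind (x : El ℕ) : mk (kind x) (idx x) = x := by
  cases x <;> rfl

lemma shape_mk (κ : Fin 9) (a : ℕ → ℕ) :
    Shape (mk κ (a : Idx)) (fun n => mk κ (a n)) := by
  fin_cases κ
  exacts [.zero, .b, .b', .C, .k, .d, .u a, .v a, .c a]

lemma Φ_surjective : Function.Surjective Φ := by
  intro x
  induction x using Quotient.inductionOn' with
  | h e =>
    have h1 : ∀ᶠ n in (U : Filter ℕ), ∃ κ : Fin 9, kind (L := ℕ) (e n) = κ :=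
      Eventually.of_forall fun n => ⟨_, rfl⟩
    obtain ⟨κ, hκ⟩ := Ultrafilter.eventually_exists_iff.1 h1
    refine ⟨mk κ (((fun n => idx (e n)) : ℕ → ℕ) : Idx), ?_⟩
    rw [shape_Φ (shape_mk κ _)]
    refine mkU_eq.2 (hκ.mono fun n hn => ?_)
    rw [← hn]
    exact mk_kind (e n)

lemma shape_cmp {x y : El Idx} {e e' : ∀ n, ElD (DN n)} (h : Shape x e) (h' : Shape y e') :
    Φ (cmp DS x y) = mkU (fun n => cmp (DN n) (e n) (e' n)) := by
  cases h <;> cases h'
  all_goals try exact shape_Φ .zero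
  case u.d a =>
    have e1 : ((a : Idx) = DS.f) ↔ ∀ᶠ n in (U : Filter ℕ), a n = 0 := Germ.coe_eq
    have e2 : ((a : Idx) = DS.l) ↔ ∀ᶠ n in (U : Filter ℕ), a n = n + 1 := Germ.coe_eq
    by_cases h1 : ∀ᶠ n in (U : Filter ℕ), a n = 0
    · rw [show cmp DS (.u (a : Idx)) .d = .b from if_pos (e1.2 h1), shape_Φ .b]
      exact mkU_eq.2 (h1.mono fun n hn => (if_pos hn).symm)
    · have h1' := Ultrafilter.eventually_not.2 h1
      by_cases h2 : ∀ᶠ n in (U : Filter ℕ), a n = n + 1
      · rw [show cmp DS (.u (a : Idx)) .d = .C from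
          (if_neg (fun h => h1 (e1.1 h))).trans (if_pos (e2.2 h2)), shape_Φ .C]
        exact mkU_eq.2 ((h1'.and h2).mono fun n hn =>
          ((if_neg hn.1).trans (if_pos hn.2)).symm)
      · have h2' := Ultrafilter.eventually_not.2 h2
        rw [show cmp DS (.u (a : Idx)) .d = .zero from
          (if_neg (fun h => h1 (e1.1 h))).trans (if_neg (fun h => h2 (e2.1 h))), shape_Φ .zero]
        exact mkU_eq.2 ((h1'.and h2').mono fun n hn =>
          ((if_neg hn.1).trans (if_neg hn.2)).symm)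
  case u.c a i =>
    have e1 : ((a : Idx) = DS.s (i : Idx)) ↔ ∀ᶠ n in (U : Filter ℕ), a n = i n + 1 :=
      Germ.coe_eq
    have e2 : ((i : Idx) = DS.l) ↔ ∀ᶠ n in (U : Filter ℕ), i n = n + 1 := Germ.coe_eq
    by_cases h1 : ∀ᶠ n in (U : Filter ℕ), a n = i n + 1 ∧ i n ≠ n + 1
    · have h2 : (a : Idx) = DS.s (i : Idx) ∧ (i : Idx) ≠ DS.l := by
        refine ⟨e1.2 (h1.mono fun n hn => hn.1), fun h => ?_⟩
        obtain ⟨n, hn, hn'⟩ := (h1.and (e2.1 h)).exists
        exact hn.2 hn'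
      rw [show cmp DS (.u (a : Idx)) (.c (i : Idx)) = .v (i : Idx) from if_pos h2,
        shape_Φ (.v i)]
      exact mkU_eq.2 (h1.mono fun n hn => (if_pos hn).symm)
    · have h1' := Ultrafilter.eventually_not.2 h1
      have h2 : ¬ ((a : Idx) = DS.s (i : Idx) ∧ (i : Idx) ≠ DS.l) := by
        rintro ⟨h2, h3⟩
        have h4 := Ultrafilter.eventually_not.2 (fun h => h3 (e2.2 h))
        exact h1 ((e1.1 h2).and h4)
      rw [show cmp DS (.u (a : Idx)) (.c (i : Idx)) = .zero from if_neg h2, shape_Φ .zero]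
      exact mkU_eq.2 (h1'.mono fun n hn => (if_neg hn).symm)
  case v.d a =>
    have e2 : ((a : Idx) = DS.l) ↔ ∀ᶠ n in (U : Filter ℕ), a n = n + 1 := Germ.coe_eq
    by_cases h2 : ∀ᶠ n in (U : Filter ℕ), a n = n + 1
    · rw [show cmp DS (.v (a : Idx)) .d = .b' from if_pos (e2.2 h2), shape_Φ .b']
      exact mkU_eq.2 (h2.mono fun n hn => (if_pos hn).symm)
    · have h2' := Ultrafilter.eventually_not.2 h2
      rw [show cmp DS (.v (a : Idx)) .d = .zero from if_neg (fun h => h2 (e2.1 h)),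
        shape_Φ .zero]
      exact mkU_eq.2 (h2'.mono fun n hn => (if_neg hn).symm)

lemma shape_mt {x y z : El Idx} {e e' e'' : ∀ n, ElD (DN n)} (h : Shape x e)
    (h' : Shape y e') (h'' : Shape z e'') :
    mt DS x y = some z ↔ ∀ᶠ n in (U : Filter ℕ), mt (DN n) (e n) (e' n) = some (e'' n) := by
  have key : ∀ {t : El Idx} {r : ∀ n, ElD (DN n)}, Shape t r →
      (t = z ↔ ∀ᶠ n in (U : Filter ℕ), r n = e'' n) := by
    intro t r hr
    rw [← mkU_eq, ← shape_Φ hr, ← shape_Φ h'']
    exact Φ_injective.eq_iff.symm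
  unfold mt
  by_cases h1 : ∀ᶠ n in (U : Filter ℕ), le' (DN n) (e n) (e' n)
  · rw [if_pos ((shape_le h h').2 h1), Option.some_inj, key h]
    refine eventually_congr (h1.mono fun n hn => ?_)
    rw [if_pos hn]
    exact ⟨fun h => congrArg some h, fun h => Option.some.inj h⟩
  rw [if_neg (fun hh => h1 ((shape_le h h').1 hh))]
  have h1' := Ultrafilter.eventually_not.2 h1
  by_cases h2 : ∀ᶠ n in (U : Filter ℕ), le' (DN n) (e' n) (e n)
  · rw [if_pos ((shape_le h' h).2 h2), Option.some_inj, key h']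
    refine eventually_congr ((h1'.and h2).mono fun n hn => ?_)
    rw [if_neg hn.1, if_pos hn.2]
    exact ⟨fun h => congrArg some h, fun h => Option.some.inj h⟩
  rw [if_neg (fun hh => h2 ((shape_le h' h).1 hh))]
  have h2' := Ultrafilter.eventually_not.2 h2
  by_cases h3 : ∀ᶠ n in (U : Filter ℕ), isBC (e n) (e' n)
  · rw [if_pos ((shape_BC h h').2 h3), Option.some_inj, key .k]
    refine eventually_congr (((h1'.and h2').and h3).mono fun n hn => ?_)
    rw [if_neg hn.1.1, if_neg hn.1.2, if_pos hn.2]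
    exact ⟨fun h => congrArg some h, fun h => Option.some.inj h⟩
  rw [if_neg (fun hh => h3 ((shape_BC h h').1 hh))]
  have h3' := Ultrafilter.eventually_not.2 h3
  constructor
  · intro hh
    exact absurd hh (by simp)
  · intro hh
    exfalso
    obtain ⟨n, hn, hn'⟩ := (hh.and ((h1'.and h2').and h3')).exists
    rw [if_neg hn'.1.1, if_neg hn'.1.2, if_neg hn'.2] at hn
    exact absurd hn (by simp)

/-- the isomorphism of first-order structures -/
noncomputable def iso : ElD DS ≃[sig] UP where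
  toEquiv := Equiv.ofBijective Φ ⟨Φ_injective, Φ_surjective⟩
  map_fun' := by
    intro n f x
    cases f
    obtain ⟨e, he⟩ := shape_exists (x 0)
    obtain ⟨e', he'⟩ := shape_exists (x 1)
    have h1 := Language.Ultraproduct.funMap_cast (L := sig) (u := U)
      (M := fun n => ElD (DN n)) (n := 2) (show sig.Functions 2 from FunSym.comp) ![e, e']
    change Φ (cmp DS (x 0) (x 1)) = _
    rw [shape_cmp he he']
    refine Eq.trans ?_ (h1.symm.trans ?_)
    · rfl
    · congr 1
      funext i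
      fin_cases i
      · exact (shape_Φ he).symm
      · exact (shape_Φ he').symm
  map_rel' := by
    intro n r x
    cases r
    obtain ⟨e, he⟩ := shape_exists (x 0)
    obtain ⟨e', he'⟩ := shape_exists (x 1)
    obtain ⟨e'', he''⟩ := shape_exists (x 2)
    refine Iff.trans ?_ (shape_mt he he' he'').symm
    have h1 := @Language.relMap_quotient_mk' sig (∀ n, ElD (DN n))
      ((U : Filter ℕ).productSetoid (fun n => ElD (DN n)))
      (Language.Ultraproduct.setoidPrestructure (fun n => ElD (DN n)) U) 3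
      (show sig.Relations 3 from RelSym.meet) ![e, e', e'']
    refine Iff.trans ?_ (h1.trans ?_)
    · apply iff_of_eq
      congr 1
      funext i
      fin_cases i
      · exact shape_Φ he
      · exact shape_Φ he'
      · exact shape_Φ he''
    · rfl

theorem not_finitelyAxiomatisable : ¬ FinitelyAxiomatisable.{u, w} := by
  rintro ⟨Ψ, hΨ⟩
  have hne : ∀ n, Nonempty (ElD (DN n)) := fun n => ⟨El.zero⟩
  -- the ultraproduct is representable
  have h1 : Representable.{0, w} (ElD DS) := by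
    apply representable_of_cut DS {i : Idx | ∃ k : ℕ, i = ((fun _ => k : ℕ → ℕ) : Idx)}
    · intro i
      induction i using Germ.inductionOn with
      | _ a =>
        intro h
        have h2 : ∀ᶠ n in (U : Filter ℕ), a n + 1 = 0 := Germ.coe_eq.1 h
        obtain ⟨n, hn⟩ := h2.exists
        omega
    · exact ⟨0, rfl⟩
    · rintro ⟨k, hk⟩
      have h2 : ∀ᶠ n in (U : Filter ℕ), n + 1 = k := Germ.coe_eq.1 hk
      have h3 : ∀ᶠ n in (U : Filter ℕ), k < n := by
        have : ∀ᶠ n in (atTop : Filter ℕ), k < n := eventually_gt_atTop k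
        exact Nat.hyperfilter_le_atTop this
      obtain ⟨n, hn, hn'⟩ := (h2.and h3).exists
      omega
    · rintro i ⟨k, rfl⟩
      exact ⟨k + 1, rfl⟩
  have h2 : ∀ ψ ∈ Ψ, ∀ᶠ n in (U : Filter ℕ), ElD (DN n) ⊨ ψ := by
    intro ψ hψ
    have h3 : ULift.{u} (ElD DS) ⊨ ψ := (hΨ _).2 (ulift_rep.2 h1) ψ hψ
    have h4 : ElD DS ⊨ ψ := (ulift_models ψ).1 h3
    have h5 : UP ⊨ ψ := (iso.toElementaryEmbedding.map_sentence ψ).1 h4
    exact (Language.Ultraproduct.sentence_realize ψ).1 h5
  have h3 : ∀ᶠ n in (U : Filter ℕ), ∀ ψ ∈ Ψ, ElD (DN n) ⊨ ψ :=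
    (eventually_all_finset Ψ).2 h2
  obtain ⟨n, hn⟩ := h3.exists
  exact not_representable n (ulift_rep.1 ((hΨ (ULift.{u} (ElD (DN n)))).1
    fun ψ hψ => (ulift_models ψ).2 (hn ψ hψ)))

end Pool.Agent.H.MP_ef6db9_lc
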